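import Mathlib
import Pool.Agent.K1H15.P1.Desc

/-!
# A potentially semisimple group all of whose determinants are finite has no centre
-/

set_option linter.unusedSectionVars false

namespace Pool.Agent.K1H15.GS

open Module TensorProduct Finset Function Pool.Agent.H204R3.SP Pool.Agent.H204R3.GP
  Pool.Agent.W522.U Pool.Agent.K1H13.N Pool.Agent.W516.FT Pool.Agent.W516.DR Pool.Agent.K1H15.MT
  Pool.Agent.K1H15.P1 Pool.Agent.TH118.SG Pool.Agent.K1H13.D4

noncomputable section

section det

variable {K X U : Type} [Field K] [AddCommGroup X] [Module K X] [AddCommGroup U] [Module K U]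
  {d : ℕ}

theorem upd_same {v : Fin d × Fin 2 → X} (p : X →ₗ[K] U) [DecidableEq (Fin d × Fin 2)] (a : Fin d)
    (b : Fin 2) (x : X) : (fun i => p (update v (a, b) x (i, b))) =
      update (fun i => p (v (i, b))) a (p x) := by
  funext i
  by_cases h : i = a
  · subst h
    rw [update_self, update_self]
  · rw [update_of_ne h, update_of_ne (fun h' => h (congrArg Prod.fst h'))]

theorem upd_other {v : Fin d × Fin 2 → X} (p : X →ₗ[K] U) [DecidableEq (Fin d × Fin 2)] (a : Fin d)
    {b c : Fin 2} (hbc : c ≠ b) (x : X) : (fun i => p (update v (a, b) x (i, c))) =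
      fun i => p (v (i, c)) := by
  funext i
  rw [update_of_ne (fun h' => hbc (congrArg Prod.snd h'))]

/-- The product of two determinants. -/
def detF (e : Basis (Fin d) K U) (p : X →ₗ[K] U) :
    MultilinearMap K (fun _ : Fin d × Fin 2 => X) K where
  toFun v := e.det (fun i => p (v (i, 0))) * e.det (fun i => p (v (i, 1)))
  map_update_add' := by
    rintro _ v ⟨a, b⟩ x y
    rcases Fin.eq_zero_or_eq_succ b with rfl | ⟨b, rfl⟩
    · rw [upd_same, upd_same, upd_same, upd_other p a (by decide), upd_other p a (by decide),
        upd_other p a (by decide), map_add, AlternatingMap.map_update_add, add_mul]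
    · obtain rfl : b = 0 := Subsingleton.elim _ _
      change e.det (fun i => p (update v (a, 1) (x + y) (i, 0))) *
        e.det (fun i => p (update v (a, 1) (x + y) (i, 1))) =
        e.det (fun i => p (update v (a, 1) x (i, 0))) *
        e.det (fun i => p (update v (a, 1) x (i, 1))) +
        e.det (fun i => p (update v (a, 1) y (i, 0))) *
        e.det (fun i => p (update v (a, 1) y (i, 1)))
      rw [upd_same, upd_same, upd_same, upd_other p a (by decide), upd_other p a (by decide),
        upd_other p a (by decide), map_add, AlternatingMap.map_update_add, mul_add]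
  map_update_smul' := by
    rintro _ v ⟨a, b⟩ c x
    rcases Fin.eq_zero_or_eq_succ b with rfl | ⟨b, rfl⟩
    · rw [upd_same, upd_same, upd_other p a (by decide), upd_other p a (by decide),
        map_smul, AlternatingMap.map_update_smul, smul_mul_assoc]
    · obtain rfl : b = 0 := Subsingleton.elim _ _
      change e.det (fun i => p (update v (a, 1) (c • x) (i, 0))) *
        e.det (fun i => p (update v (a, 1) (c • x) (i, 1))) =
        c • (e.det (fun i => p (update v (a, 1) x (i, 0))) *
        e.det (fun i => p (update v (a, 1) x (i, 1))))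
      rw [upd_same, upd_same, upd_other p a (by decide), upd_other p a (by decide),
        map_smul, AlternatingMap.map_update_smul, mul_smul_comm]

theorem detF_apply (e : Basis (Fin d) K U) (p : X →ₗ[K] U) (v : Fin d × Fin 2 → X) :
    detF e p v = e.det (fun i => p (v (i, 0))) * e.det (fun i => p (v (i, 1))) := rfl

end det

variable {K : Type} [Field K] [CharZero K] [IsAlgClosed K] {X : Type} [AddCommGroup X] [Module K X]
  [FiniteDimensional K X] {Γ : Type} [Group Γ] {R : Representation K Γ X} {χ : Γ →* K}

/-- On every subspace stable under a subgroup of finite index the determinant is trivial on a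
subgroup of finite index. -/
def FinDet (R : Representation K Γ X) : Prop :=
  ∀ Δ : Subgroup Γ, Δ.FiniteIndex → ∀ (U : Submodule K X) (hU : ∀ s ∈ Δ, ∀ u ∈ U, R s u ∈ U),
    ∃ Δ' : Subgroup Γ, Δ'.FiniteIndex ∧ ∀ (s : Γ) (hs : s ∈ Δ), s ∈ Δ' →
      LinearMap.det ((R s).restrict (hU s hs)) = 1

open scoped Classical in
/-- An element of the Lie algebra which commutes with the Lie algebra vanishes. -/
theorem center_zero {ω : X →ₗ[K] X →ₗ[K] K} (hnd : ∀ x, (∀ y, ω x y = 0) → x = 0)
    (hω : ∀ g x y, ω (R g x) (R g y) = χ g * ω x y) (hχ : ∀ g, χ g = 1) (hss : HasProj R)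
    (hb : BddRoots R) (hd : FinDet R) {z : End K X} (hz : z ∈ lieT R χ)
    (hc : ∀ Y ∈ lieT R χ, Y * z = z * Y) : z = 0 := by
  obtain ⟨Δ, hΔ, hzΔ⟩ := almost_of_comm (χ := χ) hss hb hc
  -- all eigenvalues vanish
  have heig : ∀ c : K, c ≠ 0 → z.maxGenEigenspace c = ⊥ := by
    intro c hc0
    by_contra hU0
    set U := z.maxGenEigenspace c with hUdef
    have hU : ∀ s ∈ Δ, ∀ u ∈ U, R s u ∈ U := by
      intro s hs u hu
      obtain ⟨n, hn⟩ := mem_gen.1 hu
      refine mem_gen.2 ⟨n, ?_⟩
      have h1 : Commute (R s) z := LinearMap.ext fun v => (hzΔ s hs v).symm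
      have h2 : Commute (R s) ((z - algebraMap K (End K X) c) ^ n) :=
        (h1.sub_right (Algebra.commutes c (R s)).symm).pow_right n
      have h3 := congrArg (fun f : End K X => f u) h2.eq
      simp only [Module.End.mul_apply] at h3
      rw [← h3, hn, map_zero]
    obtain ⟨Δ', hΔ', hdet⟩ := hd Δ hΔ U hU
    -- the projection
    obtain ⟨P, hP⟩ := exists_op z (fun β => if β = c then 1 else 0)
    have hPU : ∀ x, P x ∈ U := by
      intro x
      have hx : x ∈ ⨆ β, z.maxGenEigenspace β := by
        rw [Module.End.iSup_maxGenEigenspace_eq_top z]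
        exact Submodule.mem_top
      induction hx using Submodule.iSup_induction' with
      | mem β x hx =>
        rw [hP β x hx]
        by_cases h : β = c
        · rw [if_pos h, one_smul, hUdef, ← h]
          exact hx
        · rw [if_neg h, zero_smul]
          exact Submodule.zero_mem _
      | zero => rw [map_zero]; exact Submodule.zero_mem _
      | add x y _ _ hx hy => rw [map_add]; exact Submodule.add_mem _ hx hy
    have hPu : ∀ u ∈ U, P u = u := by
      intro u hu
      rw [hP c u hu, if_pos rfl, one_smul]
    let p : X →ₗ[K] U := LinearMap.codRestrict U P hPU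
    have hp : ∀ x, ((p x : U) : X) = P x := fun _ => rfl
    -- equivariance
    have hPR : ∀ s ∈ Δ, ∀ x, P (R s x) = R s (P x) := by
      intro s hs x
      have h1 : P * R s = R s * P := by
        refine op_ext z fun β x hx => ?_
        have hRx : R s x ∈ z.maxGenEigenspace β := by
          obtain ⟨n, hn⟩ := mem_gen.1 hx
          refine mem_gen.2 ⟨n, ?_⟩
          have h1 : Commute (R s) z := LinearMap.ext fun v => (hzΔ s hs v).symm
          have h2 : Commute (R s) ((z - algebraMap K (End K X) β) ^ n) :=
            (h1.sub_right (Algebra.commutes β (R s)).symm).pow_right n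
          have h3 := congrArg (fun f : End K X => f x) h2.eq
          simp only [Module.End.mul_apply] at h3
          rw [← h3, hn, map_zero]
        rw [Module.End.mul_apply, Module.End.mul_apply, hP β _ hRx, hP β x hx, map_smul]
      exact congrArg (fun f : End K X => f x) h1
    set d := finrank K U with hddef
    let e : Basis (Fin d) K U := Module.finBasis K U
    have hd0 : d ≠ 0 := by
      intro h
      apply hU0
      exact Submodule.finrank_eq_zero.1 h
    have hT : IsTate R χ d (detF e p) := by
      refine ⟨Δ ⊓ Δ', inferInstance, fun s hs v => ?_⟩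
      have h1 : ∀ b : Fin 2, (fun i => p (R s (v (i, b)))) =
          ((R s).restrict (hU s hs.1)) ∘ fun i => p (v (i, b)) := by
        intro b
        funext i
        apply Subtype.ext
        rw [hp, hPR s hs.1]
        rfl
      rw [detF_apply, detF_apply, h1, h1, Basis.det_comp, Basis.det_comp, hdet s hs.1 hs.2,
        hχ, one_pow, one_mul, one_mul, one_mul]
    -- the semisimple part
    obtain ⟨Z, hZ⟩ := exists_op z (fun β => β)
    have hZk : Kills Z (detF e p) :=
      replica_one (hz d _ hT) (AddMonoidHom.id K) hZ
    have hpZ : ∀ x, p (Z x) = c • p x := by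
      intro x
      apply Subtype.ext
      rw [hp, Submodule.coe_smul, hp]
      have h1 : P * Z = c • P := by
        refine op_ext z fun β x hx => ?_
        rw [Module.End.mul_apply, LinearMap.smul_apply, hZ β x hx, map_smul, hP β x hx]
        by_cases h : β = c
        · rw [if_pos h, h]
        · rw [if_neg h, zero_smul, smul_zero, smul_zero]
      exact congrArg (fun f : End K X => f x) h1
    have h1 := hZk (fun l => ((e l.1 : U) : X))
    have h2 : ∀ k : Fin d × Fin 2, detF e p (update (fun l => ((e l.1 : U) : X)) k
        (Z ((e k.1 : U) : X))) = c * 1 := by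
      intro k
      have h3 : detF e p (fun l => ((e l.1 : U) : X)) = 1 := by
        rw [detF_apply]
        have h4 : (fun i => p ((e i : U) : X)) = e := by
          funext i
          apply Subtype.ext
          rw [hp, hPu _ (e i).2]
        change e.det (fun i => p ((e i : U) : X)) * e.det (fun i => p ((e i : U) : X)) = 1
        rw [h4, Basis.det_self, one_mul]
      have h4 : detF e p (update (fun l => ((e l.1 : U) : X)) k (Z ((e k.1 : U) : X))) =
          detF e p (update (fun l => ((e l.1 : U) : X)) k (c • ((e k.1 : U) : X))) := by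
        rw [detF_apply, detF_apply]
        obtain ⟨a, b⟩ := k
        have h5 : ∀ b' : Fin 2, (fun i => p (update (fun l : Fin d × Fin 2 => ((e l.1 : U) : X))
            (a, b) (Z ((e a : U) : X)) (i, b'))) = fun i => p (update (fun l : Fin d × Fin 2 =>
            ((e l.1 : U) : X)) (a, b) (c • ((e a : U) : X)) (i, b')) := by
          intro b'
          by_cases h : b' = b
          · subst h
            rw [upd_same, upd_same, hpZ, map_smul]
          · rw [upd_other p a h, upd_other p a h]
        rw [h5, h5]
      rw [h4, MultilinearMap.map_update_smul]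
      have h6 : update (fun l : Fin d × Fin 2 => ((e l.1 : U) : X)) k ((e k.1 : U) : X) =
          fun l => ((e l.1 : U) : X) := update_eq_self k _
      rw [h6, h3, smul_eq_mul]
    rw [Finset.sum_congr rfl fun k _ => h2 k, Finset.sum_const, Finset.card_univ,
      Fintype.card_prod, Fintype.card_fin, Fintype.card_fin, nsmul_eq_mul, mul_one] at h1
    have h3 := (mul_eq_zero.1 h1).resolve_right hc0
    rw [Nat.cast_eq_zero] at h3
    omega
  -- `z` is nilpotent
  have hnil : IsNilpotent z := by
    rw [Module.End.isNilpotent_iff_of_finite]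
    intro x
    have hx : x ∈ ⨆ β, z.maxGenEigenspace β := by
      rw [Module.End.iSup_maxGenEigenspace_eq_top z]
      exact Submodule.mem_top
    have h1 : (⨆ β, z.maxGenEigenspace β) ≤ z.maxGenEigenspace 0 := by
      refine iSup_le fun β => ?_
      by_cases h : β = 0
      · rw [h]
      · rw [heig β h]
        exact bot_le
    obtain ⟨n, hn⟩ := mem_gen.1 (h1 hx)
    rw [map_zero, sub_zero] at hn
    exact ⟨n, hn⟩
  refine nondegT hnd hω hss z hz fun Y hY => ?_
  have h1 : Commute z Y := (hc Y hY).symm
  exact (LinearMap.isNilpotent_trace_of_isNilpotent (h1.isNilpotent_mul_right hnil)).eq_zero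

end

end Pool.Agent.K1H15.GS
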