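import Mathlib
import Pool.Agent.K1H15.GS.Det
import Pool.Agent.K1H13.N.Desc

/-!
# Tate classes on a fibre which decide whether the `ℓ`-adic monodromy is constant
-/

set_option linter.unusedSectionVars false

namespace Pool.Agent.K1H15.GS

open Module TensorProduct Finset Function Pool.Agent.H204R3.SP Pool.Agent.H204R3.GP
  Pool.Agent.W522.U Pool.Agent.K1H13.N Pool.Agent.W516.FT Pool.Agent.W516.DR Pool.Agent.K1H15.MT
  Pool.Agent.K1H15.P1 Pool.Agent.TH118.SG Pool.Agent.K1H13.D4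

noncomputable section

section lie

variable {k W : Type} [Field k] [CharZero k] [AddCommGroup W] [Module k W] [FiniteDimensional k W]

/-- A Lie algebra with trivial centre and nondegenerate trace form is contained in every subspace
containing its brackets. -/
theorem le_of_bracket {𝔫 : Submodule k (Module.End k W)}
    (hnt : Pool.Agent.W516.KC2.TraceNondeg 𝔫)
    (hbr : ∀ X ∈ 𝔫, ∀ Y ∈ 𝔫, X * Y - Y * X ∈ 𝔫)
    (hz : ∀ z ∈ 𝔫, (∀ Y ∈ 𝔫, Y * z = z * Y) → z = 0) {S : Submodule k (Module.End k W)}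
    (hS : ∀ X ∈ 𝔫, ∀ Y ∈ 𝔫, X * Y - Y * X ∈ S) : 𝔫 ≤ S := by
  intro Y₀ hY₀
  by_contra hne
  obtain ⟨f, hf, hfS⟩ := Submodule.exists_le_ker_of_notMem hne
  let f' : Module.Dual k 𝔫 := f ∘ₗ 𝔫.subtype
  set X := (Pool.Agent.W516.KC2.trE 𝔫 hnt).symm f' with hX
  have hXf : ∀ Y : 𝔫, LinearMap.trace k W (X.1 * Y.1) = f Y.1 := by
    intro Y
    have h1 : Pool.Agent.W516.KC2.trE 𝔫 hnt X = f' := by rw [hX, LinearEquiv.apply_symm_apply]
    exact congrArg (fun g : Module.Dual k 𝔫 => g Y) h1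
  have hX0 : (X : Module.End k W) = 0 := by
    refine hz _ X.2 fun A hA => ?_
    rw [← sub_eq_zero]
    refine hnt _ (hbr A hA _ X.2) fun B hB => ?_
    have h1 := hXf ⟨A * B - B * A, hbr A hA B hB⟩
    have h2 : f (A * B - B * A) = 0 := hfS (hS A hA B hB)
    change LinearMap.trace k W (X.1 * (A * B - B * A)) = f (A * B - B * A) at h1
    rw [h2, mul_sub, map_sub, sub_eq_zero] at h1
    rw [sub_mul, map_sub, sub_eq_zero, mul_assoc, LinearMap.trace_mul_comm, mul_assoc X.1 A B, h1,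
      mul_assoc]
  have h3 := hXf ⟨Y₀, hY₀⟩
  rw [hX0, zero_mul, map_zero] at h3
  exact hf h3.symm

end lie

section ell

variable {ℓ : ℕ} [hℓ : Fact ℓ.Prime] {V : Type} [AddCommGroup V] [Module ℚ_[ℓ] V]
  [FiniteDimensional ℚ_[ℓ] V] {Γ : Type} [Group Γ] {ρ : Representation ℚ_[ℓ] Γ V}
  {χ : Γ →* ℚ_[ℓ]}

/-- An element of the Lie algebra which commutes with the Lie algebra vanishes. -/
theorem center_zero' {ω : V →ₗ[ℚ_[ℓ]] V →ₗ[ℚ_[ℓ]] ℚ_[ℓ]} (hnd : ∀ x, (∀ y, ω x y = 0) → x = 0)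
    (hω : ∀ g x y, ω (ρ g x) (ρ g y) = χ g * ω x y) (hχ : ∀ g, χ g = 1)
    (hss : FiniteIndexSemisimple ρ) (hd : FinDet (bcr ρ (AlgebraicClosure ℚ_[ℓ])))
    {z : Module.End ℚ_[ℓ] V} (hz : z ∈ lieT ρ χ) (hc : ∀ Y ∈ lieT ρ χ, Y * z = z * Y) :
    z = 0 := by
  set Ω := AlgebraicClosure ℚ_[ℓ]
  have _ : CharZero Ω := charZero_of_injective_algebraMap (algebraMap ℚ_[ℓ] Ω).injective
  have h1 := center_zero (R := bcr ρ Ω) (χ := bcc χ Ω) (ω := bcb Ω ω)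
    (nondeg_ext ω (bcb Ω ω) (fun u v => bcb_one ω u v) hnd) (bcb_inv ρ χ ω hω)
    (fun g => by rw [bcc_apply, hχ, map_one]) (hasProj_bcr ρ Ω hss) (bdd_bcr ρ) hd
    (lie_ext ρ χ hz) (fun Z hZ => (comm_iff z Z).1 fun lam => hc _ (lie_cmp ρ χ hZ lam))
  exact bc_inj h1

variable {Γ' : Type} [Group Γ'] {ρ' : Representation ℚ_[ℓ] Γ' V} {χ' : Γ' →* ℚ_[ℓ]}

theorem fi_comap (s : Γ' →* Γ) {Δ : Subgroup Γ} (hΔ : Δ.FiniteIndex) :
    (Δ.comap s).FiniteIndex := by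
  constructor
  rw [Subgroup.index_comap]
  exact (inferInstance : (Δ.subgroupOf s.range).FiniteIndex).index_ne_zero

/-- Restriction of Tate forms. -/
theorem tate_res {s : Γ' →* Γ} (hρ : ∀ g, ρ (s g) = ρ' g) (hχ : ∀ g, χ (s g) = χ' g) {m : ℕ}
    {φ : MultilinearMap ℚ_[ℓ] (fun _ : Fin m × Fin 2 => V) ℚ_[ℓ]} (h : IsTate ρ χ m φ) :
    IsTate ρ' χ' m φ := by
  obtain ⟨Δ, hΔ, h⟩ := h
  refine ⟨Δ.comap s, fi_comap s hΔ, fun g hg v => ?_⟩
  have h1 := h (s g) hg v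
  rw [hχ] at h1
  simp only [hρ] at h1
  exact h1

theorem lie_res {s : Γ' →* Γ} (hρ : ∀ g, ρ (s g) = ρ' g) (hχ : ∀ g, χ (s g) = χ' g) :
    lieT ρ' χ' ≤ lieT ρ χ := fun _ hX m φ hφ => hX m φ (tate_res hρ hχ hφ)

/-- The twisted action of an element on a form. -/
def tw (ρ : Representation ℚ_[ℓ] Γ V) (χ : Γ →* ℚ_[ℓ]) (m : ℕ) (g : Γ)
    (φ : MultilinearMap ℚ_[ℓ] (fun _ : Fin m × Fin 2 => V) ℚ_[ℓ]) :
    MultilinearMap ℚ_[ℓ] (fun _ : Fin m × Fin 2 => V) ℚ_[ℓ] :=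
  χ g⁻¹ ^ m • φ.compLinearMap fun _ => ρ g

theorem tw_apply (m : ℕ) (g : Γ) (φ : MultilinearMap ℚ_[ℓ] (fun _ : Fin m × Fin 2 => V) ℚ_[ℓ])
    (v : Fin m × Fin 2 → V) : tw ρ χ m g φ v = χ g⁻¹ ^ m * φ (fun l => ρ g (v l)) := rfl

theorem chi_inv (χ : Γ →* ℚ_[ℓ]) (g : Γ) : χ g⁻¹ * χ g = 1 := by
  rw [← map_mul, inv_mul_cancel, map_one]

theorem chi_inv' (χ : Γ →* ℚ_[ℓ]) (g : Γ) : χ g * χ g⁻¹ = 1 := by
  rw [← map_mul, mul_inv_cancel, map_one]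

theorem tw_mul (m : ℕ) (g h : Γ)
    (φ : MultilinearMap ℚ_[ℓ] (fun _ : Fin m × Fin 2 => V) ℚ_[ℓ]) :
    tw ρ χ m (g * h) φ = tw ρ χ m h (tw ρ χ m g φ) := by
  apply MultilinearMap.ext
  intro v
  rw [tw_apply, tw_apply, tw_apply, mul_inv_rev, map_mul, mul_pow, map_mul]
  simp only [Module.End.mul_apply]
  ring

theorem tw_eq_iff (m : ℕ) (g : Γ)
    (φ : MultilinearMap ℚ_[ℓ] (fun _ : Fin m × Fin 2 => V) ℚ_[ℓ]) :
    tw ρ χ m g φ = φ ↔ ∀ v, φ (fun l => ρ g (v l)) = χ g ^ m * φ v := by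
  constructor
  · intro h v
    have h1 := congrArg (fun f : MultilinearMap ℚ_[ℓ] (fun _ : Fin m × Fin 2 => V) ℚ_[ℓ] => f v) h
    simp only [tw_apply] at h1
    rw [← h1, ← mul_assoc, ← mul_pow, chi_inv', one_pow, one_mul]
  · intro h
    apply MultilinearMap.ext
    intro v
    rw [tw_apply, h, ← mul_assoc, ← mul_pow, chi_inv, one_pow, one_mul]

/-- The orbit of a Tate form is finite. -/
theorem orbit_finite {m : ℕ} {φ : MultilinearMap ℚ_[ℓ] (fun _ : Fin m × Fin 2 => V) ℚ_[ℓ]}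
    (h : IsTate ρ χ m φ) : (Set.range fun g => tw ρ χ m g φ).Finite := by
  obtain ⟨Δ, hΔ, h⟩ := h
  -- the orbit only depends on the coset `Δ g`
  have h1 : ∀ g g' : Γ, g * g'⁻¹ ∈ Δ → tw ρ χ m g φ = tw ρ χ m g' φ := by
    intro g g' hg
    have h2 : g = (g * g'⁻¹) * g' := by group
    have h3 : tw ρ χ m (g * g'⁻¹) φ = φ := (tw_eq_iff m _ φ).2 (h _ hg)
    conv_lhs => rw [h2, tw_mul, h3]
  have hfin : Finite (Quotient (QuotientGroup.rightRel Δ)) := by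
    have h2 : Finite (Γ ⧸ Δ) := Subgroup.finite_quotient_of_finiteIndex
    exact Finite.of_equiv _ (QuotientGroup.quotientRightRelEquivQuotientLeftRel Δ).symm
  let F : Quotient (QuotientGroup.rightRel Δ) →
      MultilinearMap ℚ_[ℓ] (fun _ : Fin m × Fin 2 => V) ℚ_[ℓ] :=
    Quotient.lift (fun g => tw ρ χ m g φ) fun a b hab => by
      have h2 : b * a⁻¹ ∈ Δ := QuotientGroup.rightRel_apply.1 hab
      exact (h1 b a h2).symm
  refine (Set.finite_range F).subset ?_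
  rintro _ ⟨g, rfl⟩
  exact ⟨Quotient.mk _ g, rfl⟩

/-- A form with finite orbit is a Tate form. -/
theorem tate_of_orbit {m : ℕ} {φ : MultilinearMap ℚ_[ℓ] (fun _ : Fin m × Fin 2 => V) ℚ_[ℓ]}
    (h : (Set.range fun g => tw ρ χ m g φ).Finite) : IsTate ρ χ m φ := by
  let Δ : Subgroup Γ :=
    { carrier := {g | tw ρ χ m g φ = φ}
      one_mem' := by
        rw [Set.mem_setOf_eq, tw_eq_iff]
        intro v
        rw [map_one, map_one, one_pow, one_mul]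
        rfl
      mul_mem' := by
        intro a b ha hb
        rw [Set.mem_setOf_eq] at ha hb ⊢
        rw [tw_mul, ha, hb]
      inv_mem' := by
        intro a ha
        rw [Set.mem_setOf_eq] at ha ⊢
        conv_lhs => rw [← ha, ← tw_mul, mul_inv_cancel]
        rw [tw_eq_iff]
        intro v
        rw [map_one, map_one, one_pow, one_mul]
        rfl }
  have hfin : Finite (Set.range fun g => tw ρ χ m g φ) := h.to_subtype
  have hΔ : Δ.FiniteIndex := by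
    refine Pool.Agent.TH118.CR.fi_of_map Δ (T := Set.range fun g => tw ρ χ m g φ)
      (fun g => ⟨tw ρ χ m g⁻¹ φ, ⟨g⁻¹, rfl⟩⟩) ?_
    intro g g' hgg
    have h1 : tw ρ χ m g⁻¹ φ = tw ρ χ m g'⁻¹ φ := congrArg Subtype.val hgg
    change tw ρ χ m (g⁻¹ * g') φ = φ
    rw [tw_mul, h1, ← tw_mul, inv_mul_cancel, tw_eq_iff]
    intro v
    rw [map_one, map_one, one_pow, one_mul]
    rfl
  exact ⟨Δ, hΔ, fun g hg => (tw_eq_iff m g φ).1 hg⟩

/-- A form which is a Tate form for the point, all of whose conjugates over the point are Tate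
forms for the geometric fundamental group, is a Tate form. -/
theorem tate_of_both {s : Γ' →* Γ} (hρ : ∀ g, ρ (s g) = ρ' g) (hχ : ∀ g, χ (s g) = χ' g)
    {N : Subgroup Γ} (hgen : ∀ γ : Γ, ∃ g : Γ', ∃ ν ∈ N, γ = s g * ν)
    {m : ℕ} (hN : ∀ ψ, IsTate ρ' χ' m ψ → IsTate (ρ.comp N.subtype) (χ.comp N.subtype) m ψ)
    {φ : MultilinearMap ℚ_[ℓ] (fun _ : Fin m × Fin 2 => V) ℚ_[ℓ]} (h : IsTate ρ' χ' m φ) :
    IsTate ρ χ m φ := by
  have hs : ∀ g ψ, tw ρ' χ' m g ψ = tw ρ χ m (s g) ψ := by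
    intro g ψ
    apply MultilinearMap.ext
    intro v
    rw [tw_apply, tw_apply, ← map_inv, hχ, hρ]
  have hn : ∀ (ν : N) ψ, tw (ρ.comp N.subtype) (χ.comp N.subtype) m ν ψ =
      tw ρ χ m (ν : Γ) ψ := fun _ _ => rfl
  have hst : ∀ g, IsTate ρ' χ' m (tw ρ' χ' m g φ) := by
    intro g
    apply tate_of_orbit
    refine (orbit_finite h).subset ?_
    rintro _ ⟨g', rfl⟩
    exact ⟨g * g', tw_mul m g g' φ⟩
  apply tate_of_orbit
  refine Set.Finite.subset (Set.Finite.biUnion (orbit_finite h)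
    (t := fun ψ => Set.range fun ν : N => tw (ρ.comp N.subtype) (χ.comp N.subtype) m ν ψ) ?_) ?_
  · rintro _ ⟨g, rfl⟩
    exact orbit_finite (hN _ (hst g))
  · rintro _ ⟨γ, rfl⟩
    obtain ⟨g, ν, hν, rfl⟩ := hgen γ
    rw [Set.mem_iUnion₂]
    refine ⟨_, ⟨g, rfl⟩, ⟨⟨ν, hν⟩, ?_⟩⟩
    simp only [hn, hs]
    rw [tw_mul]

/-- An almost equivariant operator for the point is almost equivariant if the bilinear Tate forms
are. -/
theorem am_spread {ω : V →ₗ[ℚ_[ℓ]] V →ₗ[ℚ_[ℓ]] ℚ_[ℓ]} (hnd : ∀ x, (∀ y, ω x y = 0) → x = 0)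
    (hω : ∀ g x y, ω (ρ g x) (ρ g y) = χ g * ω x y)
    (hω' : ∀ g x y, ω (ρ' g x) (ρ' g y) = χ' g * ω x y)
    (h2 : ∀ φ : MultilinearMap ℚ_[ℓ] (fun _ : Fin 1 × Fin 2 => V) ℚ_[ℓ], IsTate ρ' χ' 1 φ →
      IsTate ρ χ 1 φ) {P : Module.End ℚ_[ℓ] V} (hP : AlmostEquivariant ρ' P) :
    AlmostEquivariant ρ P := by
  obtain ⟨Δ, hΔ, hP⟩ := hP
  obtain ⟨Δ', hΔ', h3⟩ := h2 (one2 (ω.comp P)) ⟨Δ, hΔ, fun s hs v => by
    rw [one2_apply, one2_apply, LinearMap.comp_apply, LinearMap.comp_apply, hP s hs, hω',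
      pow_one]⟩
  refine ⟨Δ', hΔ', fun s hs v => ?_⟩
  rw [← sub_eq_zero]
  refine hnd _ fun y => ?_
  have h4 := h3 s hs fun l => if l.2 = 0 then v else ρ s⁻¹ y
  rw [one2_apply, one2_apply] at h4
  simp only [if_true, LinearMap.comp_apply, one_ne_zero, if_false, pow_one] at h4
  have h5 : ρ s (ρ s⁻¹ y) = y := by
    rw [← Module.End.mul_apply, ← map_mul, mul_inv_cancel, map_one]
    rfl
  rw [h5] at h4
  have h6 := hω s (P v) (ρ s⁻¹ y)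
  rw [h5] at h6
  rw [map_sub, LinearMap.sub_apply, h4, h6, sub_self]

/-- **The bilinear Tate forms and one form in four variables decide.** -/
theorem spread_all {ω : V →ₗ[ℚ_[ℓ]] V →ₗ[ℚ_[ℓ]] ℚ_[ℓ]} (hnd : ∀ x, (∀ y, ω x y = 0) → x = 0)
    (hω : ∀ g x y, ω (ρ g x) (ρ g y) = χ g * ω x y)
    (hω' : ∀ g x y, ω (ρ' g x) (ρ' g y) = χ' g * ω x y)
    (hss : FiniteIndexSemisimple ρ')
    {s : Γ' →* Γ} (hρ : ∀ g, ρ (s g) = ρ' g) (hχ : ∀ g, χ (s g) = χ' g)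
    {N : Subgroup Γ} (hgen : ∀ γ : Γ, ∃ g : Γ', ∃ ν ∈ N, γ = s g * ν) (hχN : ∀ ν ∈ N, χ ν = 1)
    (hssN : FiniteIndexSemisimple (ρ.comp N.subtype))
    (hdN : FinDet (bcr (ρ.comp N.subtype) (AlgebraicClosure ℚ_[ℓ])))
    (h2 : ∀ φ : MultilinearMap ℚ_[ℓ] (fun _ : Fin 1 × Fin 2 => V) ℚ_[ℓ], IsTate ρ' χ' 1 φ →
      IsTate ρ χ 1 φ)
    (h4 : IsTate ρ χ 2 (Pool.Agent.W516.KC2.casimir (lieT ρ' χ') (traceNondeg hnd hω' hss) ω))
    {m : ℕ} {φ : MultilinearMap ℚ_[ℓ] (fun _ : Fin m × Fin 2 => V) ℚ_[ℓ]}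
    (h : IsTate ρ' χ' m φ) : IsTate ρ χ m φ := by
  -- the decomposition of the elements of the Lie algebra
  have hdec : ∀ Z ∈ lieT ρ χ, ∃ Y ∈ lieT ρ' χ', (Z - Y) ∈ lieT ρ χ ∧
      AlmostEquivariant ρ (Z - Y) := by
    intro Z hZ
    obtain ⟨Y, hY, hYc⟩ := Pool.Agent.W516.KC2.mem_of_kills_casimir (lieT ρ' χ')
      (traceNondeg hnd hω' hss) ω (fun X hX Y hY => lieT_bracket ρ' χ' hX hY) hnd
      (fun u v => lieT_sp ρ χ ω hω hZ u v) (hZ 2 _ h4)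
    exact ⟨Y, hY, Submodule.sub_mem _ hZ (lie_res hρ hχ hY),
      am_spread hnd hω hω' h2 (almost_of_commute hss (bdd_bcr ρ') hYc)⟩
  have hbr : ∀ Z ∈ lieT ρ χ, ∀ Z' ∈ lieT ρ χ, Z * Z' - Z' * Z ∈ lieT ρ' χ' := by
    intro Z hZ Z' hZ'
    obtain ⟨Y, hY, h1, h2⟩ := hdec Z hZ
    obtain ⟨Y', hY', h1', h2'⟩ := hdec Z' hZ'
    have c1 : ∀ A ∈ lieT ρ χ, A * (Z - Y) = (Z - Y) * A := fun A hA =>
      LinearMap.ext fun v => lie_comm hnd hω h2 hA v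
    have c2 : ∀ A ∈ lieT ρ χ, A * (Z' - Y') = (Z' - Y') * A := fun A hA =>
      LinearMap.ext fun v => lie_comm hnd hω h2' hA v
    have e1 : Z = Y + (Z - Y) := by abel
    have e2 : Z' = Y' + (Z' - Y') := by abel
    have e3 : Z * Z' - Z' * Z = Y * Y' - Y' * Y := by
      have e4 : Z * Z' - Z' * Z = (Y * Y' - Y' * Y) + (Y * (Z' - Y') - (Z' - Y') * Y) +
          ((Z - Y) * Z' - Z' * (Z - Y)) := by
        noncomm_ring
      rw [e4, c2 Y (lie_res hρ hχ hY), c1 Z' hZ', sub_self, sub_self, add_zero, add_zero]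
    rw [e3]
    exact lieT_bracket ρ' χ' hY hY'
  -- the Lie algebra of the geometric fundamental group
  have hωN : ∀ (g : N) x y, ω ((ρ.comp N.subtype) g x) ((ρ.comp N.subtype) g y) =
      (χ.comp N.subtype) g * ω x y := fun g x y => hω _ x y
  have hle : lieT (ρ.comp N.subtype) (χ.comp N.subtype) ≤ lieT ρ χ :=
    lie_res (s := N.subtype) (fun _ => rfl) fun _ => rfl
  have hN : lieT (ρ.comp N.subtype) (χ.comp N.subtype) ≤ lieT ρ' χ' := by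
    refine le_of_bracket (traceNondeg hnd hωN hssN) (fun X hX Y hY => lieT_bracket _ _ hX hY)
      (fun z hz hc => center_zero' hnd hωN (fun g => hχN g g.2) hssN hdN hz hc)
      fun X hX Y hY => hbr X (hle hX) Y (hle hY)
  exact tate_of_both hρ hχ hgen (fun ψ hψ => tate_of_kills fun Y hY => hN hY m ψ hψ) h

end ell

end

end Pool.Agent.K1H15.GS
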