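import Mathlib
import Pool.Agent.K1H15.GS.Main
import Pool.Agent.K1H15.MT.Alt

/-!
# From multilinear forms to the cohomology of the powers of a fibre
-/

set_option linter.unusedSectionVars false

namespace Pool.Agent.K1H15.GS

open Module Finset Function Pool.Agent.H204R3.SP Pool.Agent.H204R3.GP Pool.Agent.K1H15.MT

noncomputable section

variable {k : Type} [Field k] [CharZero k] {V : Type} [AddCommGroup V] [Module k V]
  {Γ : Type} [Group Γ] {ρ : Representation k Γ V} {χ : Γ →* k} {n j : ℕ}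

theorem single_rho (i : Fin n) (s : Γ) (x : V) (a : Fin n) :
    ρ s ((Pi.single i x : Fin n → V) a) = (Pi.single i (ρ s x) : Fin n → V) a := by
  by_cases hi : a = i
  · subst hi
    rw [Pi.single_eq_same, Pi.single_eq_same]
  · rw [Pi.single_eq_of_ne hi, Pi.single_eq_of_ne hi, map_zero]

theorem tate_rsI (I : Fin j × Fin 2 → Fin n)
    {f : (Fin n → V) [⋀^Fin j × Fin 2]→ₗ[k] k} (h : IsTateClass ρ χ j f) :
    IsTate ρ χ j (rsI I f.toMultilinearMap) := by
  obtain ⟨Δ, hΔ, h1⟩ := h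
  refine ⟨Δ, hΔ, fun s hs v => ?_⟩
  have h2 := h1 s hs (fun l => Pi.single (I l) (v l))
  have h3 : (fun (l : Fin j × Fin 2) (i : Fin n) =>
      ρ s ((Pi.single (I l) (v l) : Fin n → V) i)) =
      fun l => (Pi.single (I l) (ρ s (v l)) : Fin n → V) := by
    funext l i
    exact single_rho _ _ _ _
  rw [h3] at h2
  exact h2

theorem tate_aI (I : Fin j × Fin 2 → Fin n)
    {φ : MultilinearMap k (fun _ : Fin j × Fin 2 => V) k} (h : IsTate ρ χ j φ) :
    IsTateClass ρ χ j (aI I φ) := by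
  obtain ⟨Δ, hΔ, h1⟩ := h
  refine ⟨Δ, hΔ, fun s hs v => ?_⟩
  rw [aI_apply, aI_apply, Finset.mul_sum]
  refine Finset.sum_congr rfl fun σ _ => ?_
  rw [h1 s hs fun l => v (σ l) (I l)]
  ring

theorem tate_zero : IsTateClass ρ χ j (0 : (Fin n → V) [⋀^Fin j × Fin 2]→ₗ[k] k) := by
  refine ⟨⊤, inferInstance, fun s _ v => ?_⟩
  rw [AlternatingMap.zero_apply, AlternatingMap.zero_apply, mul_zero]

theorem tate_add {f g : (Fin n → V) [⋀^Fin j × Fin 2]→ₗ[k] k}
    (hf : IsTateClass ρ χ j f) (hg : IsTateClass ρ χ j g) : IsTateClass ρ χ j (f + g) := by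
  obtain ⟨Δ, hΔ, hf⟩ := hf
  obtain ⟨Δ', hΔ', hg⟩ := hg
  refine ⟨Δ ⊓ Δ', inferInstance, fun s hs v => ?_⟩
  rw [AlternatingMap.add_apply, AlternatingMap.add_apply, hf s hs.1, hg s hs.2, mul_add]

theorem tate_smul (c : k) {f : (Fin n → V) [⋀^Fin j × Fin 2]→ₗ[k] k}
    (hf : IsTateClass ρ χ j f) : IsTateClass ρ χ j (c • f) := by
  obtain ⟨Δ, hΔ, hf⟩ := hf
  refine ⟨Δ, hΔ, fun s hs v => ?_⟩
  rw [AlternatingMap.smul_apply, AlternatingMap.smul_apply, hf s hs, smul_eq_mul, smul_eq_mul]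
  ring

/-- The restriction of the alternating form attached to a form, for different factors. -/
theorem rs_aI {κ : Type} [Fintype κ] [DecidableEq κ] {I : κ → Fin n} (hI : Injective I)
    (φ : MultilinearMap k (fun _ : κ => V) k) :
    rsI I (aI I φ).toMultilinearMap = φ := by
  refine MultilinearMap.ext fun v => ?_
  rw [rsI_apply]
  change aI I φ _ = _
  rw [aI_apply, Finset.sum_eq_single (1 : Equiv.Perm κ)]
  · rw [Equiv.Perm.sign_one, Units.val_one, Int.cast_one, one_mul]
    congr 1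
    funext l
    rw [Equiv.Perm.one_apply, Pi.single_eq_same]
  · intro σ _ hσ
    obtain ⟨l, hl⟩ : ∃ l, σ l ≠ l := by
      by_contra hcon
      push Not at hcon
      exact hσ (Equiv.ext hcon)
    have h1 : φ (fun l => (Pi.single (I (σ l)) (v (σ l)) : Fin n → V) (I l)) = 0 := by
      refine φ.map_coord_zero l ?_
      exact Pi.single_eq_of_ne (fun h => hl (hI h).symm) _
    rw [h1, mul_zero]
  · intro h
    exact absurd (Finset.mem_univ _) h

variable {Γ' : Type} [Group Γ'] {ρ' : Representation k Γ' V} {χ' : Γ' →* k}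

/-- If the Tate forms of one action are Tate forms of another one, this is true for classes. -/
theorem class_of_forms (h : ∀ φ : MultilinearMap k (fun _ : Fin j × Fin 2 => V) k,
      IsTate ρ' χ' j φ → IsTate ρ χ j φ)
    {f : (Fin n → V) [⋀^Fin j × Fin 2]→ₗ[k] k} (hf : IsTateClass ρ' χ' j f) :
    IsTateClass ρ χ j f := by
  have h2 : (Nat.factorial (Fintype.card (Fin j × Fin 2)) : k) ≠ 0 :=
    Nat.cast_ne_zero.2 (Nat.factorial_ne_zero _)
  have h3 : IsTateClass ρ χ j ((Nat.factorial (Fintype.card (Fin j × Fin 2)) : k) • f) := by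
    rw [alt_decomp f]
    exact Finset.sum_induction _ (fun g => IsTateClass ρ χ j g) (fun _ _ => tate_add) tate_zero
      fun I _ => tate_aI I (h _ (tate_rsI I hf))
  have h4 := tate_smul (Nat.factorial (Fintype.card (Fin j × Fin 2)) : k)⁻¹ h3
  rwa [smul_smul, inv_mul_cancel₀ h2, one_smul] at h4

/-- Conversely for classes on a large power. -/
theorem forms_of_class {I : Fin j × Fin 2 → Fin n} (hI : Injective I)
    (h : ∀ f : (Fin n → V) [⋀^Fin j × Fin 2]→ₗ[k] k, IsTateClass ρ' χ' j f →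
      IsTateClass ρ χ j f) {φ : MultilinearMap k (fun _ : Fin j × Fin 2 => V) k}
    (hφ : IsTate ρ' χ' j φ) : IsTate ρ χ j φ := by
  have h1 := tate_rsI I (h _ (tate_aI I hφ))
  rwa [rs_aI hI] at h1

end

end Pool.Agent.K1H15.GS
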