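import Mathlib
import Pool.Agent.H204R3.GP.Defs
import Pool.Agent.H204R3.SP.Descent

/-!
# Families of abelian varieties through a point: definitions

In the application `k = ℚ_ℓ`, `V` is `H^1(A_x, ℚ_ℓ)` (or the rational Tate module), `Γx` the Galois
group of a finitely generated field over which the point `x` is defined, `ρx` its action on `V`, `χx`
the cyclotomic character (for the Tate module; its inverse for `H^1`) and `ω` the form given by the
polarization.
-/

namespace Pool.Agent.K1H15.GS

open TensorProduct Pool.Agent.H204R3.GP

noncomputable section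

/-- The determinants are finite: for every subgroup `Δ` of finite index and every subspace `U`
stable under `Δ`, the determinant of the action on `U` is trivial on a subgroup of finite index. -/
def FiniteDeterminants {K X Γ : Type} [Field K] [AddCommGroup X] [Module K X] [Group Γ]
    (R : Representation K Γ X) : Prop :=
  ∀ Δ : Subgroup Γ, Δ.FiniteIndex → ∀ (U : Submodule K X) (hU : ∀ s ∈ Δ, ∀ u ∈ U, R s u ∈ U),
    ∃ Δ' : Subgroup Γ, Δ'.FiniteIndex ∧ ∀ (s : Γ) (hs : s ∈ Δ), s ∈ Δ' →
      LinearMap.det ((R s).restrict (hU s hs)) = 1

/-- The monodromy is semisimple (as a representation of every subgroup of finite index) and over the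
algebraic closure the determinants are finite. For the geometric fundamental group of a variety and
the cohomology of the fibres of a smooth projective family this is a theorem of Deligne. -/
def IsSemisimpleMonodromy {k V N : Type} [Field k] [AddCommGroup V] [Module k V] [Group N]
    (ρ : Representation k N V) : Prop :=
  FiniteIndexSemisimple ρ ∧
    FiniteDeterminants (Pool.Agent.H204R3.SP.bcr ρ (AlgebraicClosure k))

/-- A fundamental group `π₁` with the geometric fundamental group and the section given by a point,
acting on the cohomology `V` of the fibre; `χ` is the cyclotomic character. -/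
structure Monodromy (k V Γx : Type) [Field k] [AddCommGroup V] [Module k V] [Group Γx] where
  /-- the fundamental group of `Y` -/
  π₁ : Type
  [group : Group π₁]
  /-- the geometric fundamental group -/
  geom : Subgroup π₁
  /-- the section given by the point `x` -/
  point : Γx →* π₁
  /-- the monodromy -/
  ρ : Representation k π₁ V
  /-- the cyclotomic character -/
  χ : π₁ →* k

attribute [instance] Monodromy.group

/-- The monodromy of a polarized abelian scheme over a normal variety `Y` over a field with a
rational point `x`, on the `ℓ`-adic cohomology `V` of the fibre at `x`. -/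
structure FamilyThrough {k V Γx : Type} [Field k] [AddCommGroup V] [Module k V]
    [Group Γx] (ρx : Representation k Γx V) (χx : Γx →* k) (ω : V →ₗ[k] V →ₗ[k] k)
    extends Monodromy k V Γx where
  /-- the fundamental group is the product of its subgroups -/
  decomposition : ∀ γ : π₁, ∃ g : Γx, ∃ ν ∈ geom, γ = point g * ν
  ρ_point : ∀ g, ρ (point g) = ρx g
  χ_point : ∀ g, χ (point g) = χx g
  χ_geom : ∀ ν ∈ geom, χ ν = 1
  /-- the polarization -/
  pairing : ∀ γ u v, ω (ρ γ u) (ρ γ v) = χ γ * ω u v
  /-- the theorem of Deligne -/
  semisimple : IsSemisimpleMonodromy (ρ.comp geom.subtype)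

namespace FamilyThrough

variable {k V Γx : Type} [Field k] [AddCommGroup V] [Module k V] [Group Γx]
  {ρx : Representation k Γx V} {χx : Γx →* k} {ω : V →ₗ[k] V →ₗ[k] k}

/-- The class `f` in `H^{2j}(A_x^n)(j)` spreads out over the family: it is a Tate class of the
generic fibre, that is, it is fixed by a subgroup of finite index of the fundamental group. -/
def Spreads (Y : FamilyThrough ρx χx ω) {n : ℕ} (j : ℕ)
    (f : (Fin n → V) [⋀^Fin j × Fin 2]→ₗ[k] k) : Prop :=
  IsTateClass Y.ρ Y.χ j f

/-- All Tate classes, in all degrees, on all powers of `A_x` spread out over the family: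
`G_{ℓ,Y} = G_{ℓ,x}`. -/
def HasConstantMonodromy (Y : FamilyThrough ρx χx ω) : Prop :=
  ∀ (n j : ℕ) (f : (Fin n → V) [⋀^Fin j × Fin 2]→ₗ[k] k), IsTateClass ρx χx j f → Y.Spreads j f

/-- The Tate classes of degree two (combinations of divisor classes) on `A_x^2` spread out over the
family. -/
def SpreadsDivisorClasses (Y : FamilyThrough ρx χx ω) : Prop :=
  ∀ f : (Fin 2 → V) [⋀^Fin 1 × Fin 2]→ₗ[k] k, IsTateClass ρx χx 1 f → Y.Spreads 1 f

end FamilyThrough

end

end Pool.Agent.K1H15.GS
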